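import Pool.Agent.H83.X.T3

/-!
Theorem X, row XJL: the limit of the main term on a component.
-/

set_option autoImplicit false

namespace Pool.Agent.H74.X

open MeasureTheory ProbabilityTheory Filter Topology Finset
open Pool.Agent.H83.X
open Pool.Agent.H24.T2 (Pset)
open Pool.Agent.H67.AG (avgP)
open Pool.Agent.H28.LF (Xi Yi shY btY xiY CompY)
open Pool.Agent.H83.V (vl)

theorem vR_nonneg_loc (R : ℕ) (b : ℕ → Bool) : 0 ≤ vR R b := by
  unfold vR
  apply div_nonneg _ (Nat.cast_nonneg _)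
  apply Finset.sum_nonneg
  intro s _
  split_ifs <;> norm_num

theorem vR_le_loc (R : ℕ) (b : ℕ → Bool) : vR R b ≤ 1 := by
  unfold vR
  apply div_le_one_of_le₀ _ (Nat.cast_nonneg _)
  calc (∑ s ∈ range R, if b s then (1 : ℝ) else 0) ≤ ∑ s ∈ range R, (1 : ℝ) := by
        apply Finset.sum_le_sum
        intro s _
        split_ifs <;> norm_num
    _ = R := by simp

theorem abs_vl_le (z : Bool) (b : Bool × Bool) : |(vl z b : ℝ)| ≤ 1 := by
  unfold vl
  split_ifs <;> simp

theorem abs_gC_le (z : Bool) (ν : Measure Yi) [IsProbabilityMeasure ν] (n : ℕ) :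
    |gC z ν n| ≤ 1 := by
  unfold gC
  have h := norm_integral_le_of_norm_le_const (μ := ν) (C := 1)
    (f := fun ω => (vl z (btY ω) : ℝ) * (vl z (btY (shY^[n] ω)) : ℝ)) (by
      refine Filter.Eventually.of_forall fun ω => ?_
      rw [norm_mul, Real.norm_eq_abs, Real.norm_eq_abs]
      exact mul_le_one₀ (abs_vl_le _ _) (abs_nonneg _) (abs_vl_le _ _))
  rw [probReal_univ, mul_one, Real.norm_eq_abs] at h
  exact h

/-- row XJL -/
theorem pf_XJL (h1 : T_KCP) (h2 : T_XMT) (h3 : Pool.Agent.H83.V.T_LBV) : T_XJL := by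
  intro z h R Φ δ B κ _ ω hh hR hΦ hδ hB hC hae η hη
  have hprob : IsProbabilityMeasure (κ ω) := hC.prob
  have h3' := h3 (κ ω) hC
  choose! lb hlb using h3'
  obtain ⟨w, hw, hwv⟩ := h2 R (fun p => vR R (lb p)) hR
    (fun p => ⟨vR_nonneg_loc R _, vR_le_loc R _⟩) (by
      intro p p' hp hp' hpp
      obtain ⟨ω', ha, hb, hc⟩ := (hae.and ((hlb p hp).and (hlb p' hp'))).exists
      have := ha p p' hp.pos hpp
      rw [hb, hc] at this
      exact this)
  obtain ⟨m₀, hm₀⟩ := h1 z h Φ δ (κ ω) w η hh hΦ hδ hC hw hη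
  refine ⟨m₀, fun m hm => ?_⟩
  have hm' := hm₀ m hm
  have hB0 : 0 ≤ B := by
    have := hB 0 (by simp)
    have h4 := abs_nonneg (Φ 0)
    have h5 := abs_nonneg (cU Φ δ)
    linarith
  have hR0 : (0 : ℝ) < R := by exact_mod_cast hR
  have hkey : jX z h R Φ (cU Φ δ) κ m ω ≤
      avgP 2 m (fun p => w p * (Φ (gC z (κ ω) (p * h)) - cU Φ δ)) + 2 * B / R := by
    unfold jX avgP
    rcases (Pset 2 m).eq_empty_or_nonempty with hE | hE
    · rw [hE]
      simp only [Finset.sum_empty, Finset.card_empty, Nat.cast_zero, div_zero, zero_add]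
      positivity
    have hcp : (0 : ℝ) < ((Pset 2 m).card : ℝ) := by exact_mod_cast hE.card_pos
    rw [div_add' _ _ _ hcp.ne']
    apply div_le_div_of_nonneg_right _ hcp.le
    have hconst : 2 * B / R * ((Pset 2 m).card : ℝ) = ∑ p ∈ Pset 2 m, 2 * B / R := by
      rw [Finset.sum_const, nsmul_eq_mul, mul_comm]
    rw [hconst, ← Finset.sum_add_distrib]
    apply Finset.sum_le_sum
    intro p hp
    have hpp : p.Prime := (Finset.mem_filter.mp hp).2.1
    have hint : ∫ ω', vR R (xiY p ω' 0).2 ∂(κ ω) = vR R (lb p) := by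
      have : ∫ ω', vR R (xiY p ω' 0).2 ∂(κ ω) = ∫ ω', vR R (lb p) ∂(κ ω) := by
        apply integral_congr_ae
        filter_upwards [hlb p hpp] with ω' hω'
        rw [hω']
      rw [this, integral_const, probReal_univ, one_smul]
    rw [hint]
    have hX : |Φ (gC z (κ ω) (p * h)) - cU Φ δ| ≤ B :=
      (abs_sub _ _).trans (hB _ (abs_gC_le z (κ ω) (p * h)))
    have hd := hwv m p hp
    set X := Φ (gC z (κ ω) (p * h)) - cU Φ δ with hXdef
    have h6 : (vR R (lb p) - w p) * X ≤ 2 / R * B := by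
      calc (vR R (lb p) - w p) * X ≤ |(vR R (lb p) - w p) * X| := le_abs_self _
        _ = |w p - vR R (lb p)| * |X| := by rw [abs_mul, abs_sub_comm]
        _ ≤ 2 / R * B := mul_le_mul hd hX (abs_nonneg _) (by positivity)
    have h7 : 2 / (R : ℝ) * B = 2 * B / R := by ring
    linarith
  linarith

end Pool.Agent.H74.X
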